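import Pool.Agent.PTr.Birk2

/-!
# Functions on `[0, R)` with boundedly many changes (tame half of the matrix dichotomy)
-/

set_option autoImplicit false

namespace Pool.Agent.MDi

open Pool.Agent.PTr Finset

/-- `f` changes its value at most `c` times on `[0, R)`. -/
def BB {α : Type} (c R : ℕ) (f : ℕ → α) : Prop :=
  ∃ cut : Finset ℕ, cut.card ≤ c ∧ ∀ u, u + 1 < R → u ∉ cut → f (u + 1) = f u

theorem BB.le {α : Type} {c d R : ℕ} {f : ℕ → α} (h : BB c R f) (hcd : c ≤ d) : BB d R f := by
  obtain ⟨cut, h1, h2⟩ := h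
  exact ⟨cut, h1.trans hcd, h2⟩

theorem BB.const {α : Type} (R : ℕ) (a : α) : BB 0 R (fun _ => a) :=
  ⟨∅, by simp, fun _ _ _ => rfl⟩

theorem BB.congr {α : Type} {c R : ℕ} {f g : ℕ → α} (h : BB c R f) (he : ∀ u, u < R → f u = g u) :
    BB c R g := by
  obtain ⟨cut, h1, h2⟩ := h
  refine ⟨cut, h1, fun u hu hc => ?_⟩
  rw [← he (u + 1) hu, ← he u (by omega)]
  exact h2 u hu hc

theorem BB.map {α β : Type} {c R : ℕ} {f : ℕ → α} (h : BB c R f) (g : α → β) :
    BB c R (fun u => g (f u)) := by
  obtain ⟨cut, h1, h2⟩ := h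
  exact ⟨cut, h1, fun u hu hc => congrArg g (h2 u hu hc)⟩

theorem BB.pair {α β : Type} {c d R : ℕ} {f : ℕ → α} {g : ℕ → β} (hf : BB c R f) (hg : BB d R g) :
    BB (c + d) R (fun u => (f u, g u)) := by
  classical
  obtain ⟨cf, h1, h2⟩ := hf
  obtain ⟨cg, h3, h4⟩ := hg
  refine ⟨cf ∪ cg, (card_union_le _ _).trans (by omega), fun u hu hc => ?_⟩
  rw [mem_union, not_or] at hc
  exact Prod.ext (h2 u hu hc.1) (h4 u hu hc.2)

theorem BB.pi {ι α : Type} [Fintype ι] {c R : ℕ} {f : ι → ℕ → α} (h : ∀ i, BB c R (f i)) :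
    BB (Fintype.card ι * c) R (fun u i => f i u) := by
  classical
  choose cut h1 h2 using h
  refine ⟨univ.biUnion cut, ?_, fun u hu hc => ?_⟩
  · refine card_biUnion_le.trans ?_
    refine (sum_le_card_nsmul _ _ c fun i _ => h1 i).trans ?_
    simp
  · rw [mem_biUnion] at hc
    push Not at hc
    funext i
    exact h2 i u hu (hc i (mem_univ i))

/-- A monotone integer function of total variation at most `V` changes at most `V` times. -/
theorem BB.mono {V R : ℕ} {f : ℕ → ℤ} (hf : ∀ u, u + 1 < R → f u ≤ f (u + 1))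
    (hV : ∀ u, u < R → f u ≤ f 0 + V) : BB V R f := by
  classical
  refine ⟨(range (R - 1)).filter fun u => f (u + 1) ≠ f u, ?_, fun u hu hc => ?_⟩
  · have key : ∀ m, m + 1 ≤ R ∨ m = 0 →
        ((((range m).filter fun u => f (u + 1) ≠ f u).card : ℕ) : ℤ) ≤ f m - f 0 := by
      intro m
      induction m with
      | zero => intro _; simp
      | succ m ih =>
        intro hm
        have hm' : m + 1 + 1 ≤ R := by omega
        have h1 := ih (Or.inl (by omega))
        have h2 := hf m (by omega)
        rw [range_add_one, filter_insert]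
        by_cases h3 : f (m + 1) ≠ f m
        · rw [if_pos h3, card_insert_of_notMem (by simp)]
          push_cast
          have : f m < f (m + 1) := lt_of_le_of_ne h2 (Ne.symm h3)
          omega
        · rw [if_neg h3]
          omega
    rcases Nat.eq_zero_or_pos R with h0 | h0
    · subst h0
      simp
    · have h1 := key (R - 1) (by omega)
      have h2 := hV (R - 1) (by omega)
      omega
  · by_contra hne
    exact hc (mem_filter.2 ⟨mem_range.2 (by omega), hne⟩)

theorem BB.anti {V R : ℕ} {f : ℕ → ℤ} (hf : ∀ u, u + 1 < R → f (u + 1) ≤ f u)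
    (hV : ∀ u, u < R → f 0 ≤ f u + V) : BB V R f := by
  have h := BB.mono (V := V) (R := R) (f := fun u => -f u)
    (fun u hu => neg_le_neg (hf u hu)) (fun u hu => by have := hV u hu; omega)
  refine (h.map fun x => -x).congr fun u _ => ?_
  simp

/-- The integer quotient of an affine function. -/
theorem BB.div {V R : ℕ} {a b M : ℤ} (hM : 0 < M) (hV : |a| * R ≤ V * M) :
    BB (V + 1) R (fun u => (a * u + b) / M) := by
  have hquot : ∀ x y : ℤ, y ≤ x + V * M → y / M ≤ x / M + V := by
    intro x y h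
    have h1 : y / M ≤ (x + V * M) / M := Int.ediv_le_ediv hM h
    rwa [Int.add_mul_ediv_right _ _ hM.ne'] at h1
  have hle : ∀ u : ℕ, u < R → |a| * u ≤ V * M := by
    intro u hu
    refine le_trans ?_ hV
    exact mul_le_mul_of_nonneg_left (by exact_mod_cast hu.le) (abs_nonneg a)
  rcases le_total 0 a with ha | ha
  · refine (BB.mono (V := V) ?_ ?_).le (Nat.le_succ V)
    · intro u _
      refine Int.ediv_le_ediv hM ?_
      push_cast
      nlinarith
    · intro u hu
      have h1 := hle u hu
      rw [abs_of_nonneg ha] at h1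
      refine hquot _ _ ?_
      push_cast
      linarith
  · refine (BB.anti (V := V) ?_ ?_).le (Nat.le_succ V)
    · intro u _
      refine Int.ediv_le_ediv hM ?_
      push_cast
      nlinarith
    · intro u hu
      have h1 := hle u hu
      rw [abs_of_nonpos ha] at h1
      refine hquot _ _ ?_
      push_cast
      linarith

/-- The comparison of the remainder of an affine function with a threshold. -/
theorem BB.test {V R : ℕ} {a b M : ℤ} {θ : ℤ} (hM : 0 < M) (hV : |a| * R ≤ V * M) :
    BB (2 * (V + 1)) R (fun u => decide (θ ≤ (a * u + b) % M)) := by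
  have h1 := BB.div (b := b) hM hV
  have h2 := BB.div (b := b - θ) hM hV
  rcases lt_or_ge θ 0 with h0 | h0
  · refine ((BB.const R true).le (Nat.zero_le _)).congr fun u _ => ?_
    symm
    rw [decide_eq_true_iff]
    have := Int.emod_nonneg (a * u + b) hM.ne'
    omega
  rcases lt_or_ge M θ with h3 | h3
  · refine ((BB.const R false).le (Nat.zero_le _)).congr fun u _ => ?_
    symm
    rw [decide_eq_false_iff_not]
    have := Int.emod_lt_of_pos (a * u + b) hM
    omega
  refine (((h1.pair h2).map fun p => decide (p.1 ≤ p.2)).le (by omega)).congr fun u _ => ?_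
  have e1 := Int.mul_ediv_add_emod (a * u + b) M
  have e2 := Int.mul_ediv_add_emod (a * u + (b - θ)) M
  have e3 := Int.emod_nonneg (a * u + b) hM.ne'
  have e4 := Int.emod_lt_of_pos (a * u + b) hM
  have e5 := Int.emod_nonneg (a * u + (b - θ)) hM.ne'
  have e6 := Int.emod_lt_of_pos (a * u + (b - θ)) hM
  rw [decide_eq_decide]
  constructor
  · intro h
    simp only at h
    nlinarith
  · intro h
    simp only
    by_contra hlt
    push Not at hlt
    nlinarith

/-- A function which is affine with slope `1`, `-1` or `0` on every piece of a function with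
boundedly many changes is a piecewise affine map in the sense of `CutA`. -/
theorem cutA_of_BB {α : Type} {c R : ℕ} {f : ℕ → α} {T : ℕ → ℕ} (h : BB c R f) (s : α → ℤ)
    (hs : ∀ a, s a = 0 ∨ s a = 1 ∨ s a = -1)
    (hT : ∀ u, u + 1 < R → f (u + 1) = f u → (T (u + 1) : ℤ) = T u + s (f u)) :
    CutA (2 * c) R T := by
  classical
  obtain ⟨cut, h1, h2⟩ := h
  obtain ⟨C, hC⟩ : ∃ C : Finset ℕ, C = cut ∪ cut.image (fun u => u - 1) := ⟨_, rfl⟩
  have hCc : C.card ≤ 2 * c := by
    rw [hC]
    have := card_union_le cut (cut.image fun u => u - 1)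
    have := card_image_le (s := cut) (f := fun u => u - 1)
    omega
  obtain ⟨e, he⟩ : ∃ e : Fin (2 * c) → ℕ, ∀ u ∈ C, ∃ j, e j = u := by
    refine ⟨fun j => C.toList.getD j 0, fun u hu => ?_⟩
    obtain ⟨i, hi, hiu⟩ := List.mem_iff_getElem.1 (mem_toList.2 hu)
    have hi' : i < 2 * c := by
      rw [length_toList] at hi
      omega
    refine ⟨⟨i, hi'⟩, ?_⟩
    show C.toList.getD i 0 = u
    rw [List.getD_eq_getElem _ _ hi, hiu]
  refine ⟨e, fun u hu hj => ?_⟩
  have hn1 : u ∉ cut := by
    intro hc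
    obtain ⟨j, hj'⟩ := he u (by rw [hC]; exact mem_union_left _ hc)
    exact hj j hj'
  have hn2 : u + 1 ∉ cut := by
    intro hc
    obtain ⟨j, hj'⟩ := he u (by
      rw [hC]
      exact mem_union_right _ (mem_image.2 ⟨u + 1, hc, by omega⟩))
    exact hj j hj'
  have e1 := h2 u (by omega) hn1
  have e2 := h2 (u + 1) (by omega) hn2
  have t1 := hT u (by omega) e1
  have t2 := hT (u + 1) (by omega) e2
  rw [e1] at t2
  have e3 : u + 1 + 1 = u + 2 := rfl
  rw [e3] at t2
  rcases hs (f u) with h3 | h3 | h3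
  · rw [h3] at t1 t2
    exact Or.inr (Or.inr ⟨by omega, by omega⟩)
  · rw [h3] at t1 t2
    exact Or.inl ⟨by omega, by omega⟩
  · rw [h3] at t1 t2
    exact Or.inr (Or.inl ⟨by omega, by omega⟩)

end Pool.Agent.MDi
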