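import Pool.Agent.MDi.TSk
import Pool.Agent.MTr.ECert
import Pool.Agent.MTr.ETame
import Pool.Agent.MTr.Univ

/-!
# The orbits for tame sets are definable
-/

set_option autoImplicit false

namespace Pool.Agent.MDi

open Pool.Agent.PTr Pool.Agent.Grz Pool.Agent.MTr Finset

variable {r : ℕ}

theorem orbA_of_tame (hr : 0 < r) {S : Set (Matrix (Fin r) (Fin r) ℤ)} (h : TameSet S) (k : ℕ) :
    OrbA S k := by
  sorry

end Pool.Agent.MDi
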