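import Pool.Agent.MDi.TBB
import Pool.Agent.PTr.Chain
import Pool.Agent.PTr.Orbit2

/-!
# Skew products over a finite set with slopes `1`, `-1`, `0`
-/

set_option autoImplicit false
set_option linter.unusedSectionVars false

namespace Pool.Agent.MDi

open Pool.Agent.PTr Pool.Agent.Grz Finset

theorem dfun_divAny {n : ℕ} {f g : (Fin n → ℕ) → ℕ} (hf : DFun n f) (hg : DFun n g) :
    DFun n (fun v => f v / g v) := by
  have h := DFun.ite (Delta0.eqFun hg (DFun.const 0)) (DFun.const 0)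
    (DFun.div hf (hg.sub (DFun.const 1)))
  have he : (fun v => f v / g v) = fun v => if g v = 0 then 0 else f v / (g v - 1 + 1) := by
    funext v
    split_ifs with h0
    · rw [h0, Nat.div_zero]
    · rw [Nat.sub_add_cancel (Nat.pos_of_ne_zero h0)]
  rw [he]
  exact h

/-- A skew product: the states are pairs `(q, y)`, `q ∈ Q`, `0 ≤ y < m q * N`. The next state is
determined by `q`, by the outcomes `b : J → Bool` of the tests
`th ≤ (± tp * y + tc) mod (m q * N)`, and `y' = (± y or 0) + sc mod (m q' * N)`. -/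
structure Skew (Q J : Type) (n : ℕ) where
  N : (Fin n → ℕ) → ℕ
  m : Q → ℕ
  tp : Q → J → ℕ
  tn : Q → J → ℕ
  tc : Q → J → (Fin n → ℕ) → ℕ
  th : Q → J → (Fin n → ℕ) → ℕ
  nx : Q → (J → Bool) → Q
  sp : Q → (J → Bool) → Bool
  sn : Q → (J → Bool) → Bool
  sc : Q → (J → Bool) → (Fin n → ℕ) → ℕ

variable {Q J : Type} {n : ℕ}

/-- The outcome of the tests. -/
def Skew.tst (S : Skew Q J n) (v : Fin n → ℕ) (q : Q) (y : ℕ) (j : J) : Bool :=
  decide (S.th q j v ≤
    (S.tp q j * y + S.tn q j * (S.m q * S.N v - y) + S.tc q j v) % (S.m q * S.N v))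

/-- The value of the new second coordinate before the reduction. -/
def Skew.val (S : Skew Q J n) (v : Fin n → ℕ) (q : Q) (b : J → Bool) (y : ℕ) : ℕ :=
  (if S.sp q b then y else 0) + (if S.sn q b then S.m q * S.N v - y else 0) + S.sc q b v

/-- One step, for given outcomes of the tests. -/
def Skew.go (S : Skew Q J n) (v : Fin n → ℕ) (q : Q) (b : J → Bool) (y : ℕ) : Q × ℕ :=
  (S.nx q b, S.val v q b y % (S.m (S.nx q b) * S.N v))

/-- One step. -/
def Skew.step (S : Skew Q J n) (v : Fin n → ℕ) (p : Q × ℕ) : Q × ℕ :=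
  S.go v p.1 (S.tst v p.1 p.2) p.2

variable [Fintype Q] [Fintype J]

/-- The block size. -/
def Skew.D (S : Skew Q J n) : ℕ := ∑ q, S.m q

/-- The length of the interval of codes. -/
noncomputable def Skew.R (S : Skew Q J n) (v : Fin n → ℕ) : ℕ := Fintype.card Q * (S.D * S.N v)

/-- The code of a state. -/
noncomputable def Skew.cod (S : Skew Q J n) (v : Fin n → ℕ) (p : Q × ℕ) : ℕ :=
  (Fintype.equivFin Q p.1 : ℕ) * (S.D * S.N v) + p.2

open Classical in
/-- The map of the codes. -/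
noncomputable def Skew.F (S : Skew Q J n) (u : ℕ) (v : Fin n → ℕ) : ℕ :=
  ∑ q : Q, ∑ b : J → Bool,
    if u / (S.D * S.N v) = (Fintype.equivFin Q q : ℕ) ∧ u % (S.D * S.N v) < S.m q * S.N v ∧
      S.tst v q (u % (S.D * S.N v)) = b then S.cod v (S.go v q b (u % (S.D * S.N v))) else 0

theorem Skew.m_le (S : Skew Q J n) (q : Q) : S.m q ≤ S.D :=
  single_le_sum (f := S.m) (fun _ _ => Nat.zero_le _) (mem_univ q)

/-- Hypotheses on the data. -/
structure Skew.Ok (S : Skew Q J n) : Prop where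
  pos : ∀ q, 0 < S.m q
  dN : DFun n S.N
  dtc : ∀ q j, DFun n (S.tc q j)
  dth : ∀ q j, DFun n (S.th q j)
  dsc : ∀ q b, DFun n (S.sc q b)

/-- Proof. `F` is a finite sum of functions `if P then f else 0` with `P` definable and `f` in
`DFun` (closure properties `DFun.finSum`, `DFun.ite`, `DFun.modAny`, `DFun.div`, `DFun.sub`,
`Delta0.allOf`). -/
theorem Skew.dF (S : Skew Q J n) (hS : S.Ok) :
    DFun (n + 1) (fun v => S.F (v 0) (fun i => v i.succ)) := by
  have hN : DFun (n + 1) (fun w => S.N (fun i => w i.succ)) := hS.dN.weak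
  have hD : DFun (n + 1) (fun w => S.D * S.N (fun i => w i.succ)) := (DFun.const S.D).mul hN
  have hm : ∀ q, DFun (n + 1) (fun w => S.m q * S.N (fun i => w i.succ)) :=
    fun q => (DFun.const (S.m q)).mul hN
  have hy : DFun (n + 1) (fun w => w 0 % (S.D * S.N (fun i => w i.succ))) :=
    DFun.modAny (DFun.proj 0) hD
  unfold Skew.F
  refine DFun.finSum _ fun q => DFun.finSum _ fun b => DFun.ite ?_ ?_ (DFun.const 0)
  · refine (Delta0.eqFun (dfun_divAny (DFun.proj 0) hD) (DFun.const _)).and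
      ((Delta0.ltFun hy (hm q)).and ?_)
    have h : ∀ j, Delta0 (n + 1) (fun w => S.tst (fun i => w i.succ) q
        (w 0 % (S.D * S.N (fun i => w i.succ))) j = b j) := by
      intro j
      have h1 : Delta0 (n + 1) (fun w => S.th q j (fun i => w i.succ) ≤
          (S.tp q j * (w 0 % (S.D * S.N (fun i => w i.succ))) +
            S.tn q j * (S.m q * S.N (fun i => w i.succ) -
              (w 0 % (S.D * S.N (fun i => w i.succ)))) + S.tc q j (fun i => w i.succ)) %
          (S.m q * S.N (fun i => w i.succ))) :=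
        Delta0.leFun (hS.dth q j).weak (DFun.modAny ((((DFun.const _).mul hy).add
          ((DFun.const _).mul ((hm q).sub hy))).add (hS.dtc q j).weak) (hm q))
      cases hb : b j with
      | true => exact h1.of_iff fun w => by unfold Skew.tst; rw [decide_eq_true_iff]
      | false => exact h1.not.of_iff fun w => by unfold Skew.tst; rw [decide_eq_false_iff_not]
    exact (Delta0.allOf h).of_iff fun w => funext_iff
  · unfold Skew.cod Skew.go Skew.val
    refine DFun.add (f := fun w => (Fintype.equivFin Q (S.nx q b) : ℕ) *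
      (S.D * S.N (fun i => w i.succ))) ((DFun.const (Fintype.equivFin Q (S.nx q b) : ℕ)).mul hD)
      (DFun.modAny (DFun.add (DFun.add ?_ ?_) (hS.dsc q b).weak) (hm _))
    · by_cases h : S.sp q b
      · simp only [h, if_true]
        exact hy
      · simp only [h]
        exact DFun.const 0
    · by_cases h : S.sn q b
      · simp only [h, if_true]
        exact (hm q).sub hy
      · simp only [h]
        exact DFun.const 0

theorem Skew.step_lt (S : Skew Q J n) (hS : S.Ok) {v : Fin n → ℕ} (hN : 0 < S.N v) (p : Q × ℕ) :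
    (S.step v p).2 < S.m (S.step v p).1 * S.N v :=
  Nat.mod_lt _ (Nat.mul_pos (hS.pos _) hN)

theorem Skew.cod_div (S : Skew Q J n) {v : Fin n → ℕ} (hN : 0 < S.N v) {p : Q × ℕ}
    (hp : p.2 < S.m p.1 * S.N v) :
    S.cod v p / (S.D * S.N v) = (Fintype.equivFin Q p.1 : ℕ) ∧
      S.cod v p % (S.D * S.N v) = p.2 := by
  have h1 : p.2 < S.D * S.N v := hp.trans_le (Nat.mul_le_mul_right _ (S.m_le p.1))
  have h2 : 0 < S.D * S.N v := (Nat.zero_le _).trans_lt h1
  unfold Skew.cod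
  rw [mul_comm]
  constructor
  · rw [Nat.mul_add_div h2, Nat.div_eq_of_lt h1, add_zero]
  · rw [Nat.mul_add_mod, Nat.mod_eq_of_lt h1]

theorem Skew.cod_lt (S : Skew Q J n) {v : Fin n → ℕ} {p : Q × ℕ}
    (hp : p.2 < S.m p.1 * S.N v) : S.cod v p < S.R v := by
  have h1 : p.2 < S.D * S.N v := hp.trans_le (Nat.mul_le_mul_right _ (S.m_le p.1))
  have h2 : (Fintype.equivFin Q p.1 : ℕ) + 1 ≤ Fintype.card Q := (Fintype.equivFin Q p.1).2
  have h3 := Nat.mul_le_mul_right (S.D * S.N v) h2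
  unfold Skew.cod Skew.R
  rw [add_mul, one_mul] at h3
  omega

/-- The value of `F` at a code number in the block `q`. -/
theorem Skew.F_eq (S : Skew Q J n) {v : Fin n → ℕ} {u : ℕ} {q : Q}
    (hq : u / (S.D * S.N v) = (Fintype.equivFin Q q : ℕ)) :
    S.F u v = if u % (S.D * S.N v) < S.m q * S.N v then
      S.cod v (S.go v q (S.tst v q (u % (S.D * S.N v))) (u % (S.D * S.N v))) else 0 := by
  classical
  unfold Skew.F
  rw [sum_eq_single q]
  · rw [sum_eq_single (S.tst v q (u % (S.D * S.N v)))]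
    · by_cases h : u % (S.D * S.N v) < S.m q * S.N v
      · rw [if_pos ⟨hq, h, rfl⟩, if_pos h]
      · rw [if_neg (fun h' => h h'.2.1), if_neg h]
    · intro b _ hb
      exact if_neg fun h => hb h.2.2.symm
    · intro h
      exact absurd (mem_univ _) h
  · intro q' _ hq'
    refine sum_eq_zero fun b _ => if_neg fun h => hq' ?_
    have h1 := h.1.symm.trans hq
    exact (Fintype.equivFin Q).injective (Fin.ext h1)
  · intro h
    exact absurd (mem_univ _) h

theorem Skew.F_cod (S : Skew Q J n) {v : Fin n → ℕ} (hN : 0 < S.N v) {p : Q × ℕ}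
    (hp : p.2 < S.m p.1 * S.N v) : S.F (S.cod v p) v = S.cod v (S.step v p) := by
  obtain ⟨h1, h2⟩ := S.cod_div hN hp
  rw [S.F_eq h1, h2, if_pos hp]
  rfl

theorem Skew.iter (S : Skew Q J n) (hS : S.Ok) {v : Fin n → ℕ} (hN : 0 < S.N v) {p : Q × ℕ}
    (hp : p.2 < S.m p.1 * S.N v) (t : ℕ) :
    (fun u => S.F u v)^[t] (S.cod v p) = S.cod v ((S.step v)^[t] p) ∧
      ((S.step v)^[t] p).2 < S.m ((S.step v)^[t] p).1 * S.N v := by
  induction t with
  | zero => exact ⟨rfl, hp⟩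
  | succ t ih =>
    rw [Function.iterate_succ_apply', Function.iterate_succ_apply', ih.1]
    exact ⟨S.F_cod hN ih.2, S.step_lt hS hN _⟩

theorem Skew.cod_inj (S : Skew Q J n) {v : Fin n → ℕ} (hN : 0 < S.N v) {p p' : Q × ℕ}
    (hp : p.2 < S.m p.1 * S.N v) (hp' : p'.2 < S.m p'.1 * S.N v)
    (h : S.cod v p = S.cod v p') : p = p' := by
  obtain ⟨h1, h2⟩ := S.cod_div hN hp
  obtain ⟨h3, h4⟩ := S.cod_div hN hp'
  rw [h] at h1 h2
  have h5 := (Fintype.equivFin Q).injective (Fin.ext (h1.symm.trans h3))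
  exact Prod.ext h5 (h2.symm.trans h4)

theorem Skew.F_lt (S : Skew Q J n) (hS : S.Ok) (v : Fin n → ℕ) (u : ℕ) (hu : u < S.R v) :
    S.F u v < S.R v := by
  have h0 : 0 < S.R v := (Nat.zero_le u).trans_lt hu
  have hN : 0 < S.N v := by
    rcases Nat.eq_zero_or_pos (S.N v) with h | h
    · unfold Skew.R at h0
      rw [h] at h0
      simp at h0
    · exact h
  have hDN : 0 < S.D * S.N v := by
    rcases Nat.eq_zero_or_pos (S.D * S.N v) with h | h
    · unfold Skew.R at h0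
      rw [h] at h0
      simp at h0
    · exact h
  have h1 : u / (S.D * S.N v) < Fintype.card Q := by
    rw [Nat.div_lt_iff_lt_mul hDN]
    exact hu
  obtain ⟨q, hq⟩ : ∃ q : Q, u / (S.D * S.N v) = (Fintype.equivFin Q q : ℕ) :=
    ⟨(Fintype.equivFin Q).symm ⟨_, h1⟩, by rw [Equiv.apply_symm_apply]⟩
  rw [S.F_eq hq]
  split_ifs with h
  · exact S.cod_lt (Nat.mod_lt _ (Nat.mul_pos (hS.pos _) hN))
  · exact h0

/-- Boundedly many changes, uniformly in the parameters. -/
def UB {V α : Type} (P : V → Prop) (R : V → ℕ) (f : V → ℕ → α) : Prop :=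
  ∃ c, ∀ v, P v → BB c (R v) (f v)

theorem UB.pair {V α β : Type} {P : V → Prop} {R : V → ℕ} {f : V → ℕ → α} {g : V → ℕ → β}
    (hf : UB P R f) (hg : UB P R g) : UB P R (fun v u => (f v u, g v u)) := by
  obtain ⟨c, hc⟩ := hf
  obtain ⟨d, hd⟩ := hg
  exact ⟨c + d, fun v hv => (hc v hv).pair (hd v hv)⟩

theorem UB.pi {V α ι : Type} [Fintype ι] {P : V → Prop} {R : V → ℕ} {f : V → ι → ℕ → α}
    (h : ∀ i, UB P R (fun v => f v i)) : UB P R (fun v u i => f v i u) := by
  choose c hc using h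
  refine ⟨Fintype.card ι * ∑ i, c i, fun v hv => BB.pi fun i => (hc i v hv).le ?_⟩
  exact single_le_sum (f := c) (fun _ _ => Nat.zero_le _) (mem_univ i)

/-- A comparison with a number changes at most once. -/
theorem BB.lt (R K : ℕ) : BB 1 R (fun u => decide (u < K)) := by
  refine ⟨{K - 1}, by simp, fun u _ hc => ?_⟩
  rw [mem_singleton] at hc
  rw [decide_eq_decide]
  omega

/-- The sign of the slope. -/
def Skew.sg (S : Skew Q J n) (q : Q) (b : J → Bool) : ℤ :=
  (if S.sp q b then 1 else 0) - (if S.sn q b then 1 else 0)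

theorem Skew.sg_cases (S : Skew Q J n) (q : Q) (b : J → Bool) :
    S.sg q b = 0 ∨ S.sg q b = 1 ∨ S.sg q b = -1 := by
  unfold Skew.sg
  split_ifs <;> simp

theorem Skew.val_cast (S : Skew Q J n) (v : Fin n → ℕ) (q : Q) (b : J → Bool) {y : ℕ}
    (hy : y ≤ S.m q * S.N v) :
    (S.val v q b y : ℤ) = S.sg q b * y + ((if S.sn q b then ((S.m q * S.N v : ℕ) : ℤ) else 0) +
      (S.sc q b v : ℤ)) := by
  unfold Skew.val Skew.sg
  split_ifs <;> push_cast [Nat.cast_sub hy] <;> ring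

theorem Skew.tst_cast (S : Skew Q J n) (v : Fin n → ℕ) (q : Q) (j : J) {y : ℕ}
    (hy : y ≤ S.m q * S.N v) :
    S.tst v q y j = decide ((S.th q j v : ℤ) ≤ (((S.tp q j : ℤ) - S.tn q j) * y +
      (S.tn q j * ((S.m q * S.N v : ℕ) : ℤ) + (S.tc q j v : ℤ))) % ((S.m q * S.N v : ℕ) : ℤ)) := by
  unfold Skew.tst
  rw [decide_eq_decide]
  have h : (((S.tp q j : ℤ) - S.tn q j) * y +
      (S.tn q j * ((S.m q * S.N v : ℕ) : ℤ) + (S.tc q j v : ℤ))) =
      ((S.tp q j * y + S.tn q j * (S.m q * S.N v - y) + S.tc q j v : ℕ) : ℤ) := by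
    push_cast [Nat.cast_sub hy]
    ring
  rw [h, ← Int.natCast_mod, Nat.cast_le]

theorem Skew.R_pos (S : Skew Q J n) {v : Fin n → ℕ} (h : 0 < S.R v) :
    0 < S.D * S.N v ∧ 0 < S.N v := by
  unfold Skew.R at h
  have h1 := Nat.pos_of_mul_pos_left h
  exact ⟨Nat.pos_of_mul_pos_left h, Nat.pos_of_mul_pos_left (Nat.pos_of_mul_pos_left h)⟩

/-- The offset of the block `q`. -/
noncomputable def Skew.off (S : Skew Q J n) (v : Fin n → ℕ) (q : Q) : ℕ :=
  (Fintype.equivFin Q q : ℕ) * (S.D * S.N v)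

/-- The regime of a code: the block, the validity, the outcomes of the tests and the quotients. -/
noncomputable def Skew.reg (S : Skew Q J n) (v : Fin n → ℕ) (u : ℕ) :
    ℤ × (Q → Bool) × (Q → J → Bool) × (Q → (J → Bool) → ℤ) :=
  ((1 * (u : ℤ) + 0) / ((S.D * S.N v : ℕ) : ℤ),
    fun q => decide (u < S.off v q + S.m q * S.N v),
    fun q j => decide ((S.th q j v : ℤ) ≤ (((S.tp q j : ℤ) - S.tn q j) * u +
      (-(((S.tp q j : ℤ) - S.tn q j) * S.off v q) +
      (S.tn q j * ((S.m q * S.N v : ℕ) : ℤ) + (S.tc q j v : ℤ)))) % ((S.m q * S.N v : ℕ) : ℤ)),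
    fun q b => (S.sg q b * u + (-(S.sg q b * S.off v q) +
      ((if S.sn q b then ((S.m q * S.N v : ℕ) : ℤ) else 0) + (S.sc q b v : ℤ)))) /
      ((S.m (S.nx q b) * S.N v : ℕ) : ℤ))

theorem Skew.R_le (S : Skew Q J n) (hS : S.Ok) (v : Fin n → ℕ) (q : Q) (a : ℤ) (A : ℕ)
    (ha : |a| ≤ A) :
    |a| * (S.R v : ℤ) ≤ ((A * (Fintype.card Q * S.D) : ℕ) : ℤ) * ((S.m q * S.N v : ℕ) : ℤ) := by
  have h1 : S.R v ≤ (Fintype.card Q * S.D) * (S.m q * S.N v) := by
    unfold Skew.R
    have h2 : S.N v ≤ S.m q * S.N v := Nat.le_mul_of_pos_left _ (hS.pos q)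
    calc Fintype.card Q * (S.D * S.N v) = (Fintype.card Q * S.D) * S.N v := by ring
      _ ≤ _ := Nat.mul_le_mul_left _ h2
  have h3 : (S.R v : ℤ) ≤ (((Fintype.card Q * S.D) * (S.m q * S.N v) : ℕ) : ℤ) := by
    exact_mod_cast h1
  calc |a| * (S.R v : ℤ) ≤ A * (((Fintype.card Q * S.D) * (S.m q * S.N v) : ℕ) : ℤ) :=
        mul_le_mul ha h3 (Int.natCast_nonneg _) (Int.natCast_nonneg _)
    _ = _ := by push_cast; ring

theorem Skew.reg_ub (S : Skew Q J n) (hS : S.Ok) : UB (fun v => 0 < S.R v) S.R S.reg := by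
  classical
  refine UB.pair ?_ (UB.pair (UB.pi fun q => ?_) (UB.pair (UB.pi fun q => UB.pi fun j => ?_)
    (UB.pi fun q => UB.pi fun b => ?_)))
  · refine ⟨Fintype.card Q + 1, fun v hv => BB.div (V := Fintype.card Q) ?_ ?_⟩
    · exact_mod_cast (S.R_pos hv).1
    · unfold Skew.R
      push_cast
      simp
  · exact ⟨1, fun v _ => BB.lt _ _⟩
  · refine ⟨_, fun v hv => BB.test (V := (S.tp q j + S.tn q j) * (Fintype.card Q * S.D)) ?_ ?_⟩
    · exact_mod_cast Nat.mul_pos (hS.pos q) (S.R_pos hv).2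
    · refine S.R_le hS v q _ _ ?_
      rw [abs_le]
      push_cast
      constructor <;> omega
  · refine ⟨_, fun v hv => BB.div (V := 1 * (Fintype.card Q * S.D)) ?_ ?_⟩
    · exact_mod_cast Nat.mul_pos (hS.pos (S.nx q b)) (S.R_pos hv).2
    · refine S.R_le hS v _ _ _ ?_
      rcases S.sg_cases q b with h | h | h <;> rw [h] <;> simp

open Classical in
/-- The slope of the map of the codes on a regime. -/
noncomputable def Skew.slp (S : Skew Q J n)
    (a : ℤ × (Q → Bool) × (Q → J → Bool) × (Q → (J → Bool) → ℤ)) : ℤ :=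
  if h : ∃ q : Q, a.1 = ((Fintype.equivFin Q q : ℕ) : ℤ) then
    (if a.2.1 h.choose then S.sg h.choose (a.2.2.1 h.choose) else 0) else 0

/-- Boundedly many pieces. -/
theorem Skew.cut (S : Skew Q J n) (hS : S.Ok) :
    ∃ c, ∀ v, CutA c (S.R v) (fun u => S.F u v) := by
  classical
  obtain ⟨c, hc⟩ := S.reg_ub hS
  refine ⟨2 * c, fun v => ?_⟩
  rcases Nat.eq_zero_or_pos (S.R v) with h0 | h0
  · rw [h0]
    exact ⟨fun _ => 0, fun u hu => absurd hu (by omega)⟩
  refine cutA_of_BB (hc v h0) S.slp (fun a => ?_) (fun u hu he => ?_)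
  · unfold Skew.slp
    split_ifs with h h1
    · exact S.sg_cases _ _
    · exact Or.inl rfl
    · exact Or.inl rfl
  obtain ⟨hD, hN⟩ := S.R_pos h0
  have h1 : u / (S.D * S.N v) < Fintype.card Q := by
    rw [Nat.div_lt_iff_lt_mul hD]
    exact Nat.lt_of_succ_lt hu
  obtain ⟨q, hq⟩ : ∃ q : Q, u / (S.D * S.N v) = (Fintype.equivFin Q q : ℕ) :=
    ⟨(Fintype.equivFin Q).symm ⟨_, h1⟩, by rw [Equiv.apply_symm_apply]⟩
  have e1 := congrArg Prod.fst he
  have e2 := congrFun (congrArg (fun a => a.2.1) he) q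
  have e3 := fun j => congrFun (congrFun (congrArg (fun a => a.2.2.1) he) q) j
  have e4 := fun b => congrFun (congrFun (congrArg (fun a => a.2.2.2) he) q) b
  simp only [Skew.reg, one_mul, add_zero] at e1 e2 e3 e4
  have hq' : (u + 1) / (S.D * S.N v) = (Fintype.equivFin Q q : ℕ) := by
    rw [← hq]
    exact_mod_cast e1
  have hu0 : u = S.off v q + u % (S.D * S.N v) := by
    have := Nat.div_add_mod u (S.D * S.N v)
    rw [hq] at this
    unfold Skew.off
    rw [mul_comm] at this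
    exact this.symm
  have hu1 : u + 1 = S.off v q + (u + 1) % (S.D * S.N v) := by
    have := Nat.div_add_mod (u + 1) (S.D * S.N v)
    rw [hq'] at this
    unfold Skew.off
    rw [mul_comm] at this
    exact this.symm
  obtain ⟨y, hy⟩ : ∃ y, y = u % (S.D * S.N v) := ⟨_, rfl⟩
  have hy1 : (u + 1) % (S.D * S.N v) = y + 1 := by omega
  rw [← hy] at hu0
  rw [S.F_eq hq, S.F_eq hq', hy1, ← hy]
  have hslp : S.slp (S.reg v u) = if decide (u < S.off v q + S.m q * S.N v) then
      S.sg q ((S.reg v u).2.2.1 q) else 0 := by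
    have hh : ∃ q : Q, (S.reg v u).1 = ((Fintype.equivFin Q q : ℕ) : ℤ) := by
      refine ⟨q, ?_⟩
      simp only [Skew.reg, one_mul, add_zero]
      rw [← hq]
      norm_cast
    have hc2 : hh.choose = q := by
      have h2 : (S.reg v u).1 = ((Fintype.equivFin Q hh.choose : ℕ) : ℤ) := hh.choose_spec
      have h5 : (S.reg v u).1 = ((u / (S.D * S.N v) : ℕ) : ℤ) := by
        simp only [Skew.reg, one_mul, add_zero]
        norm_cast
      have h6 := h5.symm.trans h2
      have h3 : u / (S.D * S.N v) = (Fintype.equivFin Q hh.choose : ℕ) := Int.ofNat.inj h6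
      exact (Fintype.equivFin Q).injective (Fin.ext (h3.symm.trans hq))
    unfold Skew.slp
    rw [dif_pos hh, hc2]
    rfl
  rw [hslp]
  rw [decide_eq_decide] at e2
  by_cases hv : y < S.m q * S.N v
  swap
  · have hv1 : ¬ y + 1 < S.m q * S.N v := by omega
    have hv2 : ¬ u < S.off v q + S.m q * S.N v := by omega
    rw [if_neg hv, if_neg hv1, decide_eq_false hv2]
    simp
  have hv1 : y + 1 < S.m q * S.N v := by omega
  have hv2 : u < S.off v q + S.m q * S.N v := by omega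
  rw [if_pos hv, if_pos hv1, decide_eq_true hv2, if_pos rfl]
  have ht0 : (S.reg v u).2.2.1 q = S.tst v q y := by
    funext j
    rw [S.tst_cast v q j hv.le]
    simp only [Skew.reg]
    congr 3
    rw [hu0]
    push_cast
    ring
  have ht1 : S.tst v q (y + 1) = S.tst v q y := by
    rw [← ht0]
    funext j
    rw [S.tst_cast v q j hv1.le]
    simp only [Skew.reg]
    rw [← e3 j]
    congr 3
    rw [hu0]
    push_cast
    ring
  rw [ht0, ht1]
  obtain ⟨b, hb⟩ : ∃ b, b = S.tst v q y := ⟨_, rfl⟩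
  rw [← hb]
  have hva := S.val_cast v q b hv.le
  have hvb := S.val_cast v q b hv1.le
  have hq4 := e4 b
  have f1 : (S.val v q b y : ℤ) / ((S.m (S.nx q b) * S.N v : ℕ) : ℤ) =
      (S.val v q b (y + 1) : ℤ) / ((S.m (S.nx q b) * S.N v : ℕ) : ℤ) := by
    rw [hva, hvb]
    rw [hu0] at hq4
    push_cast at hq4 ⊢
    refine Eq.trans ?_ (hq4.symm.trans ?_)
    · congr 1
      ring
    · congr 1
      ring
  have hd : (S.val v q b (y + 1) : ℤ) = S.val v q b y + S.sg q b := by
    rw [hva, hvb]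
    push_cast
    ring
  have g1 := Int.mul_ediv_add_emod (S.val v q b y : ℤ) ((S.m (S.nx q b) * S.N v : ℕ) : ℤ)
  have g2 := Int.mul_ediv_add_emod (S.val v q b (y + 1) : ℤ) ((S.m (S.nx q b) * S.N v : ℕ) : ℤ)
  rw [← f1] at g2
  have g3 : ((S.val v q b (y + 1) % (S.m (S.nx q b) * S.N v) : ℕ) : ℤ) =
      ((S.val v q b y % (S.m (S.nx q b) * S.N v) : ℕ) : ℤ) + S.sg q b := by
    rw [Int.natCast_mod, Int.natCast_mod]
    linarith
  unfold Skew.cod Skew.go
  simp only
  rw [Nat.cast_add, Nat.cast_add, g3]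
  ring

/-- The orbits of a skew product are definable by bounded formulas. -/
theorem Skew.delta0 (S : Skew Q J n) (hS : S.Ok) (q₀ q₁ : Q) {y₀ y₁ t : (Fin n → ℕ) → ℕ}
    (h0 : DFun n y₀) (h1 : DFun n y₁) (ht : DFun n t) :
    Delta0 n (fun v => 0 < S.N v ∧ y₀ v < S.m q₀ * S.N v ∧
      (S.step v)^[t v] (q₀, y₀ v) = (q₁, y₁ v)) := by
  obtain ⟨c, hc⟩ := S.cut hS
  have hD : DFun n (fun v => S.D * S.N v) := (DFun.const S.D).mul hS.dN
  have hR : DFun n S.R := (DFun.const (Fintype.card Q)).mul hD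
  have hx : DFun n (fun v => S.cod v (q₀, y₀ v)) :=
    ((DFun.const (Fintype.equivFin Q q₀ : ℕ)).mul hD).add h0
  have hy : DFun n (fun v => S.cod v (q₁, y₁ v)) :=
    ((DFun.const (Fintype.equivFin Q q₁ : ℕ)).mul hD).add h1
  have hA := aff_delta0 c 0 (N := S.R) (x := fun v => S.cod v (q₀, y₀ v))
    (y := fun v => S.cod v (q₁, y₁ v)) (t := t) (S := fun _ => 0) (T := fun u v => S.F u v)
    (w := fun _ _ => 0) hR hx hy ht (DFun.const 0) (S.dF hS) (DFun.const 0)
    (fun v u hu => S.F_lt hS v u hu) hc (fun v => ⟨fun j => 0, fun u _ _ => by simp⟩)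
  have hL1 : Delta0 n (fun v => 0 < S.N v) := Delta0.ltFun (DFun.const 0) hS.dN
  have hL2 : Delta0 n (fun v => y₀ v < S.m q₀ * S.N v) :=
    Delta0.ltFun h0 ((DFun.const _).mul hS.dN)
  have hL3 : Delta0 n (fun v => y₁ v < S.m q₁ * S.N v) :=
    Delta0.ltFun h1 ((DFun.const _).mul hS.dN)
  refine (((hL1.and hL2).and hL3).and hA).of_iff fun v => ?_
  constructor
  · rintro ⟨hN, hp, h⟩
    obtain ⟨h2, h3⟩ := S.iter hS hN (p := (q₀, y₀ v)) hp (t v)
    rw [h] at h2 h3
    refine ⟨⟨⟨hN, hp⟩, h3⟩, S.cod_lt (p := (q₀, y₀ v)) hp, h2, ?_⟩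
    unfold bsum
    simp
  · rintro ⟨⟨⟨hN, hp⟩, hp1⟩, -, h, -⟩
    obtain ⟨h2, h3⟩ := S.iter hS hN (p := (q₀, y₀ v)) hp (t v)
    exact ⟨hN, hp, S.cod_inj hN h3 hp1 (h2.symm.trans h)⟩

end Pool.Agent.MDi
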