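import Pool.Agent.MTr.EDefs

/-!
# Sequences of integer vectors following affine maps modulo `N`
-/

set_option autoImplicit false

namespace Pool.Agent.MDi

open Pool.Agent.MTr Finset Matrix

variable {r q L : ℕ}

/-- The constant of the affine map of a word. -/
def wcon (A : Fin q → Matrix (Fin r) (Fin r) ℤ) (c : Fin q → Fin r → ℤ) :
    List (Fin q) → Fin r → ℤ
  | [] => 0
  | i :: l => (wprod A l).mulVec (c i) + wcon A c l

/-- A sequence of vectors which follows the affine maps of the letters modulo `N`. -/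
structure Sys (A : Fin q → Matrix (Fin r) (Fin r) ℤ) (c : Fin q → Fin r → ℤ) (N : ℕ)
    (U : ℕ → Fin r → ℤ) (i : ℕ → Fin q) : Prop where
  pos : 0 < N
  step : ∀ t l, (N : ℤ) ∣ U (t + 1) l - ((A (i t)).mulVec (U t) l + c (i t) l)
  nn : ∀ t l, 0 ≤ U (t + 1) l ∧ U (t + 1) l < N

variable {A : Fin q → Matrix (Fin r) (Fin r) ℤ} {c : Fin q → Fin r → ℤ} {N : ℕ}
  {U : ℕ → Fin r → ℤ} {i : ℕ → Fin q}

theorem dvd_eq {N a b : ℤ} (h : N ∣ a) (e : b = a) : N ∣ b := e ▸ h

theorem dvd_dot {N : ℤ} {x y : Fin r → ℤ} (h : ∀ l, N ∣ x l - y l) (f : Fin r → ℤ) :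
    N ∣ f ⬝ᵥ x - f ⬝ᵥ y := by
  rw [← dotProduct_sub]
  exact dvd_sum fun l _ => Dvd.dvd.mul_left (h l) _

theorem Sys.word (hS : Sys A c N U i) (m : ℕ) : ∀ t l, (N : ℤ) ∣ U (t + m) l -
    ((wprod A (List.ofFn fun j : Fin m => i (t + j))).mulVec (U t) l +
      wcon A c (List.ofFn fun j : Fin m => i (t + j)) l) := by
  induction m with
  | zero =>
    intro t l
    simp [wprod, wcon]
  | succ m ih =>
    intro t l
    have e : (List.ofFn fun j : Fin (m + 1) => i (t + j)) =
        i t :: List.ofFn fun j : Fin m => i (t + 1 + j) := by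
      rw [List.ofFn_succ]
      congr 1
      congr 1
      funext j
      congr 1
      rw [Fin.val_succ]
      omega
    rw [e, wprod, wcon, ← mulVec_mulVec]
    have h1 := ih (t + 1) l
    have h2 := dvd_dot (hS.step t) (wprod A (List.ofFn fun j : Fin m => i (t + 1 + j)) l)
    have e2 : t + (m + 1) = t + 1 + m := by omega
    rw [e2]
    have h3 := dvd_add h1 h2
    refine dvd_eq h3 ?_
    have e3 : (fun l => (A (i t)).mulVec (U t) l + c (i t) l) =
      (A (i t)).mulVec (U t) + c (i t) := rfl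
    rw [e3, dotProduct_add]
    simp only [mulVec, Pi.add_apply]
    ring

variable {S : ℕ} {g h : (Fin (L + 1) → Fin q) → Fin r → ℤ}
  {lam : (Fin (L + 1) → Fin q) → Fin q → ℤ} {P : (Fin (L + 1) → Fin q) → ℕ → Prop}

/-- The word at time `t`. -/
def wd (L : ℕ) (i : ℕ → Fin q) (t : ℕ) : Fin (L + 1) → Fin q := fun j => i (t + j)

theorem shift_wd (i : ℕ → Fin q) (t : ℕ) : shift (wd L i t) (i (t + (L + 1))) = wd L i (t + 1) := by
  funext j
  unfold shift
  refine Fin.lastCases ?_ (fun j => ?_) j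
  · rw [Fin.snoc_last]
    unfold wd
    congr 1
    rw [Fin.val_last]
    omega
  · rw [Fin.snoc_castSucc]
    show i (t + (j.succ : ℕ)) = i (t + 1 + (j.castSucc : ℕ))
    congr 1
    rw [Fin.val_succ, Fin.val_castSucc]
    omega

/-- The vector after a word from the second coordinate of the state. -/
theorem Sys.out (hS : Sys A c N U i) (hC : Cert A L S g h lam P) (t : ℕ) {z : ℤ}
    (hz : (N : ℤ) ∣ z - h (wd L i t) ⬝ᵥ U t) (l : Fin r) :
    U (t + (L + 1)) l =
      (g (wd L i t) l * z + wcon A c (List.ofFn (wd L i t)) l) % (N : ℤ) := by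
  have h1 := hS.word (L + 1) t l
  have h2 : (wprod A (List.ofFn (wd L i t))).mulVec (U t) l =
      g (wd L i t) l * (h (wd L i t) ⬝ᵥ U t) := by
    simp only [mulVec, dotProduct]
    rw [mul_sum]
    refine sum_congr rfl fun m _ => ?_
    rw [hC.fac]
    ring
  have h3 : (N : ℤ) ∣ U (t + (L + 1)) l -
      (g (wd L i t) l * z + wcon A c (List.ofFn (wd L i t)) l) := by
    have h4 := dvd_sub h1 (Dvd.dvd.mul_left hz (g (wd L i t) l))
    refine dvd_eq h4 ?_
    have e : (fun j : Fin (L + 1) => i (t + j)) = wd L i t := rfl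
    rw [e, h2]
    ring
  have h5 : U (t + (L + 1)) l % N =
      (g (wd L i t) l * z + wcon A c (List.ofFn (wd L i t)) l) % (N : ℤ) :=
    Int.emod_eq_emod_iff_emod_sub_eq_zero.2 (Int.emod_eq_zero_of_dvd h3)
  rw [← h5]
  have h6 := hS.nn (t + L) l
  exact (Int.emod_eq_of_lt h6.1 h6.2).symm

/-- The second coordinate of the state follows the slopes. -/
theorem Sys.slope (hS : Sys A c N U i) (hC : Cert A L S g h lam P) (t : ℕ) {z : ℤ}
    (hz : (N : ℤ) ∣ z - h (wd L i t) ⬝ᵥ U t) :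
    (N : ℤ) ∣ (lam (wd L i t) (i (t + (L + 1))) * z +
      h (wd L i (t + 1)) ⬝ᵥ c (i t)) - h (wd L i (t + 1)) ⬝ᵥ U (t + 1) := by
  have h1 := dvd_dot (hS.step t) (h (wd L i (t + 1)))
  have h2 := hC.slope (wd L i t) (i (t + (L + 1)))
  rw [shift_wd] at h2
  have h3 : h (wd L i (t + 1)) ⬝ᵥ (fun l => (A (i t)).mulVec (U t) l + c (i t) l) =
      lam (wd L i t) (i (t + (L + 1))) * (h (wd L i t) ⬝ᵥ U t) +
        h (wd L i (t + 1)) ⬝ᵥ c (i t) := by
    have e3 : (fun l => (A (i t)).mulVec (U t) l + c (i t) l) =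
      (A (i t)).mulVec (U t) + c (i t) := rfl
    have e4 : wd L i t 0 = i t := rfl
    rw [e4] at h2
    rw [e3, dotProduct_add, dotProduct_mulVec, h2, smul_dotProduct, smul_eq_mul]
  rw [h3] at h1
  have h4 := dvd_sub (Dvd.dvd.mul_left hz (lam (wd L i t) (i (t + (L + 1))))) h1
  refine dvd_eq h4 ?_
  ring

end Pool.Agent.MDi
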